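import Pool.Agent.W910.FC.Collapse
import Pool.Agent.R475.Avoid.Exist
import Pool.Agent.R475.Avoid.None

/-!
# Continuum-dense sets which strongly avoid one another without totally avoiding pairs

* There is a preordered set of forcing conditions which preserves `ω₁` and forces Martin's axiom
  for `ℵ₁` dense sets together with `𝔠 ≤ ℵ₂`.
* These axioms imply that there are two `𝔠`-dense subsets of the Cantor space which strongly avoid
  one another.
* Martin's axiom for `ℵ₁` dense sets implies that no `𝔠`-dense subset of the Cantor space totally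
  avoids another one.

The forcing language is the one of `Pool.Agent.Helper669.Forcing`: a sentence is the set of the
conditions which force it, `fnot`, `fand`, `fall` are the primitive connectives and `fimp`, `fex`
are defined from them classically; a name for a subset of a ground model set `X` is a map sending
`x : X` to a set of conditions, and `meets N` says that the generic filter meets `N`. The sentence
`MartinHolds P X` is the translation into the forcing language of the proposition `MartinFor X`
(both are in `Pool.Agent.W684.FM.Defs`), which is Martin's axiom for preorders with underlying set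
`X` and `X`-indexed families of dense sets; `ContinuumLe P Y` says that in the extension there is a
map from `Y` onto the set of all functions from the natural numbers to themselves.
-/

set_option autoImplicit false

namespace Pool.Agent.Results.MP_24213f_lc.StrongNotTotal

open Cardinal Pool.Agent.Helper669.Forcing Pool.Agent.W684.FM

/-- The countable chain condition: every set of pairwise incompatible conditions is countable
(a smaller condition is stronger). -/
def IsCCC (P : Type) [Preorder P] : Prop :=
  ∀ A : Set P, (∀ p ∈ A, ∀ q ∈ A, p ≠ q → ¬ ∃ r : P, r ≤ p ∧ r ≤ q) → A.Countable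

/-- Martin's axiom for `ℵ₁` dense sets: for every nonempty preordered set `P` with the countable
chain condition and every family of at most `ℵ₁` dense subsets of `P` there is a filter in `P`
which meets each of them. -/
def MartinAxiomAleph1 : Prop :=
  ∀ (P : Type) [Preorder P] [Nonempty P], IsCCC P →
    ∀ 𝒟 : Set (Set P), #𝒟 ≤ ℵ₁ → (∀ D ∈ 𝒟, ∀ p : P, ∃ q ∈ D, q ≤ p) →
      ∃ G : Set P, G.Nonempty ∧ (∀ p ∈ G, ∀ q : P, p ≤ q → q ∈ G) ∧
        (∀ p ∈ G, ∀ q ∈ G, ∃ r ∈ G, r ≤ p ∧ r ≤ q) ∧ ∀ D ∈ 𝒟, (G ∩ D).Nonempty

/-- `A` meets every nonempty open set of the Cantor space in `𝔠` points. -/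
def ContinuumDense (A : Set (ℕ → Bool)) : Prop :=
  ∀ U : Set (ℕ → Bool), IsOpen U → U.Nonempty → #(A ∩ U : Set (ℕ → Bool)) = 𝔠

/-- `X` strongly avoids `Y`: every continuous map into `Y` from a subset of `X` of the cardinality
of `X` has an image of smaller cardinality. -/
def StronglyAvoids (X Y : Set (ℕ → Bool)) : Prop :=
  ∀ Z : Set (ℕ → Bool), Z ⊆ X → #Z = #X → ∀ f : Z → Y, Continuous f → #(Set.range f) < #X

/-- `X` totally avoids `Y`: every continuous map into `Y` from a subset of `X` of the cardinality
of `X` has a countable image. -/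
def TotallyAvoids (X Y : Set (ℕ → Bool)) : Prop :=
  ∀ Z : Set (ℕ → Bool), Z ⊆ X → #Z = #X → ∀ f : Z → Y, Continuous f → (Set.range f).Countable

/-- There is a preordered set `P` of forcing conditions such that every condition forces that `ω₁`
is preserved, that Martin's axiom for `ℵ₁` dense sets holds and that the continuum is at most `ℵ₂`.
These axioms (whose two formulations are equivalent) imply that some `𝔠`-dense subsets `X`, `Y` of
the Cantor space strongly avoid one another, while no `𝔠`-dense subset totally avoids another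
`𝔠`-dense subset. -/
theorem result :
    (∃ (P : Type) (_ : Preorder P), Nonempty P ∧ ∀ p : P,
      p ∈ OmegaOnePreserved P ∧ p ∈ MartinHolds P Om1 ∧
        p ∈ ContinuumLe P (ℵ_ 2 : Cardinal.{0}).out) ∧
    (MartinFor Om1 ↔ MartinAxiomAleph1) ∧
    ((∃ E : (ℵ_ 2 : Cardinal.{0}).out → ℕ → ℕ, Function.Surjective E) ↔
      (𝔠 : Cardinal.{0}) ≤ ℵ_ 2) ∧
    (MartinAxiomAleph1 → (𝔠 : Cardinal.{0}) ≤ ℵ_ 2 →
      ∃ X Y : Set (ℕ → Bool), ContinuumDense X ∧ ContinuumDense Y ∧
        StronglyAvoids X Y ∧ StronglyAvoids Y X) ∧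
    (MartinAxiomAleph1 →
      ¬ ∃ X Y : Set (ℕ → Bool), ContinuumDense X ∧ ContinuumDense Y ∧ TotallyAvoids X Y) := by
  refine ⟨Pool.Agent.W910.FC.exists_forcing, martinFor_om1_iff, ?_, ?_, ?_⟩
  · have h1 : #(ℕ → ℕ) = (𝔠 : Cardinal.{0}) := by
      simp
    constructor
    · rintro ⟨E, hE⟩
      have h2 := mk_le_of_surjective hE
      rwa [h1, mk_out] at h2
    · intro h
      rw [← h1, ← mk_out (ℵ_ 2)] at h
      obtain ⟨e⟩ := h
      exact ⟨Function.invFun e, Function.invFun_surjective e.injective⟩
  · intro hMA hc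
    obtain ⟨X, Y, hX, hY, hXY, hYX⟩ := Pool.Agent.R475.Avoid.exists_avoiding (fun ι hι N hN => by
      refine Pool.Agent.R475.Avoid.null_iUnion hMA ?_ N hN
      have h1 : #ι < Order.succ ℵ₁ := by
        have h2 : (ℵ_ 2 : Cardinal.{0}) = Order.succ ℵ₁ := by
          rw [← aleph_succ]
          congr 1
          exact one_add_one_eq_two.symm
        rw [← h2]
        exact hι.trans_le hc
      exact Order.lt_succ_iff.1 h1)
    have hcard : ∀ X : Set (ℕ → Bool), (∀ U : Set (ℕ → Bool), IsOpen U → U.Nonempty →
        #(X ∩ U : Set (ℕ → Bool)) = 𝔠) → #X = 𝔠 := by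
      intro X hX
      have h := hX Set.univ isOpen_univ Set.univ_nonempty
      rwa [Set.inter_univ] at h
    have key : ∀ X Y : Set (ℕ → Bool), #X = 𝔠 →
        (∀ Z ⊆ X, ∀ F : (ℕ → Bool) → (ℕ → Bool), Measurable F → (∀ z ∈ Z, F z ∈ Y) →
          #(F '' Z) < 𝔠) → StronglyAvoids X Y := by
      intro X Y hX h Z hZ _ f hf
      obtain ⟨F, hF, hFf⟩ := Pool.Agent.Y443.BR.exists_extension (X := Z) (fun z => (f z).1)
        (continuous_subtype_val.comp hf).measurable
      rw [hX]
      have h1 := h Z hZ F hF (fun z hz => by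
        rw [hFf ⟨z, hz⟩]
        exact (f ⟨z, hz⟩).2)
      have h2 : Subtype.val '' (Set.range f) = F '' Z := by
        ext w
        constructor
        · rintro ⟨_, ⟨z, rfl⟩, rfl⟩
          exact ⟨z.1, z.2, hFf z⟩
        · rintro ⟨z, hz, rfl⟩
          exact ⟨f ⟨z, hz⟩, ⟨_, rfl⟩, (hFf ⟨z, hz⟩).symm⟩
      rw [← h2, mk_image_eq Subtype.val_injective] at h1
      exact h1
    exact ⟨X, Y, hX, hY, key X Y (hcard X hX) hXY, key Y X (hcard Y hY) hYX⟩
  · rintro hMA ⟨X, Y, hX, hY, hT⟩
    obtain ⟨Z, hZ, hZc, f, hf, hbad⟩ := Pool.Agent.R475.Avoid.exists_bad hMA hX hY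
    exact hbad (hT Z hZ hZc f hf)

end Pool.Agent.Results.MP_24213f_lc.StrongNotTotal
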